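import Pool.Agent.Helper32.AG.Goals

/-! PROJECT AG, packet TWB: two blocks, numbers and exceptions. -/

namespace Pool.Agent.Helper46.AG

open Pool.Agent.Helper32.AG

universe u

/-- A group of order a power of 2, all of whose 2-subgroups are commutative, is commutative. -/
theorem comm_of_dvd {X : Type u} [Group X] [Finite X] (hX : AbS X) (n : ℕ)
    (h : Nat.card X ∣ 2 ^ n) (x y : X) : x * y = y * x := by
  obtain ⟨k, _, hk⟩ := (Nat.dvd_prime_pow Nat.prime_two).1 h
  have hP : IsPGroup 2 (⊤ : Subgroup X) := by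
    apply IsPGroup.of_card (n := k)
    rw [Subgroup.card_top, hk]
  exact hX 2 Nat.prime_two ⊤ hP x (Subgroup.mem_top x) y (Subgroup.mem_top y)

/-- TWB. -/
theorem twb (hg : GrpStmt.{u}) (hq : AgqStmt.{u}) (h4 : N4Stmt) (ha : TwaStmt.{u})
    (hl : LevStmt.{u}) : TwbStmt.{u} := by
  intro p hp U _ _ _ _ H A q e hAH hn hc hcen hpH hAb hD
  obtain ⟨a, b, f, M, ha0, hb0, hf0, hqq, hAM, hMH, hHM, hMA, hfa, hAle, hAdvd, hMc, hnc⟩ :=
    ha p U H A q e hAH hn hc hcen hD
  have hfin : Finite (U ≃ₗ[ZMod p] U) :=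
    Finite.of_injective (fun g : U ≃ₗ[ZMod p] U => (g : U → U)) DFunLike.coe_injective
  have hlev : Levels H 2 q := hl p U H A 2 q e (by norm_num) hD
  have hcard : Nat.card H = 2 * f * Nat.card A := by rw [hHM, hMA]; ring
  have hA0 : 0 < Nat.card A := Nat.card_pos
  have hM0 : 0 < Nat.card M := Nat.card_pos
  have hp2 : p ≠ 2 := by
    rintro rfl
    apply hpH
    rw [hHM]
    exact dvd_mul_right 2 _
  rcases Nat.lt_or_ge b 2 with hb | hb
  · have hb1 : b = 1 := by omega
    subst hb1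
    rw [mul_one] at hqq
    -- the normal subgroup `A` of `H`
    obtain ⟨N, hNdef⟩ : ∃ N : Subgroup H, N = A.subgroupOf H := ⟨_, rfl⟩
    have hNmem : ∀ x : H, x ∈ N ↔ (x : U ≃ₗ[ZMod p] U) ∈ A := by
      intro x
      rw [hNdef, Subgroup.mem_subgroupOf]
    have hNn : N.Normal := ⟨fun n hn' g => by
      rw [hNmem] at hn' ⊢
      exact hn g g.2 n hn'⟩
    have hNc : ∀ x ∈ N, ∀ y ∈ N, x * y = y * x := by
      intro x hx y hy
      exact Subtype.ext (hc x ((hNmem x).1 hx) y ((hNmem y).1 hy))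
    have hNcard : Nat.card N = Nat.card A := by
      rw [hNdef]
      exact Nat.card_congr (Subgroup.subgroupOfEquivOfLe hAH).toEquiv
    have hNi : N.index = 2 * f := by
      have h1 := N.card_mul_index
      rw [hNcard, hcard, mul_comm (2 * f)] at h1
      exact Nat.eq_of_mul_eq_mul_left hA0 h1
    have hQcard : Nat.card (H ⧸ N) = 2 * f := by
      rw [← hNi, Subgroup.index_eq_card]
    -- commuting modulo `A`
    have hmod : ∀ x y : H, (QuotientGroup.mk' N x) * (QuotientGroup.mk' N y) =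
        (QuotientGroup.mk' N y) * (QuotientGroup.mk' N x) ↔
        (x : U ≃ₗ[ZMod p] U) * y * (x : U ≃ₗ[ZMod p] U)⁻¹ * (y : U ≃ₗ[ZMod p] U)⁻¹ ∈ A := by
      intro x y
      have h1 : ((x * y * x⁻¹ * y⁻¹ : H) : U ≃ₗ[ZMod p] U) =
        (x : U ≃ₗ[ZMod p] U) * y * (x : U ≃ₗ[ZMod p] U)⁻¹ * (y : U ≃ₗ[ZMod p] U)⁻¹ := rfl
      rw [← h1, ← hNmem, ← QuotientGroup.eq_one_iff]
      have h2 : ((x * y * x⁻¹ * y⁻¹ : H) : H ⧸ N) = QuotientGroup.mk' N x *
        QuotientGroup.mk' N y * (QuotientGroup.mk' N x)⁻¹ * (QuotientGroup.mk' N y)⁻¹ := rfl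
      rw [h2, mul_inv_eq_one, mul_inv_eq_iff_eq_mul]
    left
    refine ⟨a, f, Nat.card A, hp2, ha0, hf0, hA0, hqq ▸ hlev, hfa, ?_, hcard, ?_, ?_, ?_⟩
    · intro h
      apply hpH
      rw [hcard]
      exact (h.mul_left 2).mul_right _
    · -- class numbers
      obtain ⟨B, hB⟩ : ∃ B : Subgroup (H ⧸ N), B = (M.subgroupOf H).map (QuotientGroup.mk' N) :=
        ⟨_, rfl⟩
      have hMi : (M.subgroupOf H).index = 2 := by
        have h1 := (M.subgroupOf H).card_mul_index
        rw [Nat.card_congr (Subgroup.subgroupOfEquivOfLe hMH).toEquiv, hHM, mul_comm 2] at h1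
        exact Nat.eq_of_mul_eq_mul_left hM0 h1
      have hBi : B.index = 2 := by
        rw [hB, Subgroup.index_map_eq _ (QuotientGroup.mk'_surjective N), hMi]
        rw [QuotientGroup.ker_mk', hNdef]
        intro x hx
        rw [Subgroup.mem_subgroupOf] at hx ⊢
        exact hAM hx
      have hBc : Nat.card B = f := by
        have h1 := B.card_mul_index
        rw [hBi, hQcard, mul_comm] at h1
        exact Nat.eq_of_mul_eq_mul_left (by norm_num) h1
      have hBcomm : ∀ x ∈ B, ∀ y ∈ B, x * y = y * x := by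
        rw [hB]
        rintro _ ⟨x, hx, rfl⟩ _ ⟨y, hy, rfl⟩
        rw [hmod]
        exact hMc x (Subgroup.mem_subgroupOf.1 hx) y (Subgroup.mem_subgroupOf.1 hy)
      have g1 := hg.1 H N hNc
      have g2 := hg.2.1 (H ⧸ N) B hBi hBcomm
      rw [hNi, hNcard] at g1
      rw [hBc] at g2
      have g3 : f * (f + 3) ≤ f * (2 * k (H ⧸ N)) := Nat.mul_le_mul_left f g2
      have g4 : f * (2 * k (H ⧸ N)) = 2 * f * k (H ⧸ N) := by ring
      have g5 : f * (f + 3) = f ^ 2 + 3 * f := by ring
      rw [g4, g5] at g3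
      omega
    · rintro ⟨h9, h2⟩
      have hp3 : p = 3 := by
        have h1 : p ∣ 3 ^ 2 := by
          have : p ∣ p ^ a := dvd_pow_self p ha0.ne'
          rw [h9] at this
          exact this
        exact (Nat.prime_dvd_prime_iff_eq hp.out Nat.prime_three).1 (hp.out.dvd_of_dvd_pow h1)
      subst hp3
      have ha2 : a = 2 := by
        apply Nat.pow_right_injective (le_refl 2 |>.trans (by norm_num : 2 ≤ 3))
        change 3 ^ a = 3 ^ 2
        rw [h9]
      subst ha2
      have hd : Nat.card H ∣ 2 ^ 9 := by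
        have h3 : Nat.card A ∣ 64 := by
          have : (3 ^ 2 - 1) ^ 2 = 64 := by norm_num
          rw [this] at hAdvd
          exact hAdvd
        have h5 : f ∣ 4 := hfa
        rw [hcard]
        have h6 : 2 * f * Nat.card A ∣ 2 * 4 * 64 :=
          Nat.mul_dvd_mul (Nat.mul_dvd_mul_left 2 h5) h3
        exact h6
      have hcomm := comm_of_dvd hAb 9 hd
      have hHA : H ≤ A := by
        intro h hh
        apply hcen h hh
        intro a' ha'
        exact congrArg Subtype.val (hcomm ⟨h, hh⟩ ⟨a', hAH ha'⟩)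
      have h7 : Nat.card H ≤ Nat.card A := Subgroup.card_le_of_le hHA
      rw [hcard] at h7
      have h8 : 2 * f * Nat.card A = Nat.card A + (2 * f - 1) * Nat.card A := by
        have : 2 * f = 1 + (2 * f - 1) := by omega
        conv_lhs => rw [this, add_mul, one_mul]
      have h10 : 0 < (2 * f - 1) * Nat.card A := Nat.mul_pos (by omega) hA0
      omega
    · rintro ⟨h25, hf4⟩
      have hp5 : p = 5 := by
        have h1 : p ∣ 5 ^ 2 := by
          have : p ∣ p ^ a := dvd_pow_self p ha0.ne'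
          rw [h25] at this
          exact this
        exact (Nat.prime_dvd_prime_iff_eq hp.out Nat.prime_five).1 (hp.out.dvd_of_dvd_pow h1)
      subst hp5
      have ha2 : a = 2 := by
        apply Nat.pow_right_injective (le_refl 2 |>.trans (by norm_num : 2 ≤ 5))
        change 5 ^ a = 5 ^ 2
        rw [h25]
      subst ha2
      obtain ⟨x, hx, y, hy, hxy⟩ := hnc le_rfl (by rw [hf4]; norm_num)
      apply hxy
      have hAbQ : AbS (H ⧸ N) := hq.1 H (H ⧸ N) (QuotientGroup.mk' N)
        (QuotientGroup.mk'_surjective N) hAb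
      have hd : Nat.card (H ⧸ N) ∣ 2 ^ 3 := by
        rw [hQcard, hf4]
        norm_num
      exact (hmod ⟨x, hx⟩ ⟨y, hy⟩).1 (comm_of_dvd hAbQ 3 hd _ _)
  · right
    intro r hr
    have hU : Nat.card U = p ^ (2 * a * b) := by
      rw [hlev.2.1, hqq, ← pow_mul]
      congr 1
      ring
    rw [hU] at hr ⊢
    apply h4 p a b r hp.out hp2 ha0 hb
    refine hr.trans ?_
    apply Nat.add_le_add_right
    apply Nat.mul_le_mul_left
    rw [hcard]
    have hf2 : f ≤ a ^ 2 := Nat.le_of_dvd (by positivity) hfa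
    exact Nat.mul_le_mul (Nat.mul_le_mul_left 2 hf2) hAle

end Pool.Agent.Helper46.AG
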